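import Pool.Agent.Helper3.AK.Goals4

/-! Packet AK-BALL: a set with small boundary containing many positions. -/

namespace Pool.Agent.Helper54.AK.Ball

open Equiv Pool.Agent.Helper3.AK

variable {n : ℕ} {x : Fin 2 → Alt n} {g : ℕ → Letter 2} {S : Finset (Fin n)}

theorem wl_append (x : Fin 2 → Alt n) (a b : List (Letter 2)) :
    wl x (a ++ b) = wl x b * wl x a := by
  induction a with
  | nil => simp [wl]
  | cons l a ih => rw [List.cons_append, wl, wl, ih, mul_assoc]

theorem wl_snoc (x : Fin 2 → Alt n) (a : List (Letter 2)) (l : Letter 2) :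
    wl x (a ++ [l]) = lett x l * wl x a := by
  rw [wl_append]
  simp [wl]

theorem ok_snoc {l : Letter 2} {γ : List (Letter 2)} {a b : Letter 2} :
    Ok l (γ ++ [a]) → (b ≠ flip a) → Ok l (γ ++ [a] ++ [b]) := by
  intro h hb
  unfold Ok at *
  rw [← List.cons_append, List.isChain_append]
  refine ⟨h, by simp, ?_⟩
  intro c hc d hd
  rw [← List.cons_append, List.getLast?_concat] at hc
  simp only [List.head?_cons, Option.mem_def, Option.some.injEq] at hc hd
  subst hc
  subst hd
  exact hb

theorem ok_prefix {l : Letter 2} {γ : List (Letter 2)} {a : Letter 2} :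
    Ok l (γ ++ [a]) → Ok l γ := by
  intro h
  unfold Ok at *
  rw [← List.cons_append, List.isChain_append] at h
  exact h.1

/-- the word read between the times `s` and `s + κ` -/
theorem word (s : ℕ) (hs : 1 ≤ s) (κ : ℕ) (hr : Red g (s + κ)) :
    ∃ γ : List (Letter 2), γ.length = κ ∧ Ok (g (s - 1)) γ ∧
      (g (s - 1) :: γ).getLast? = some (g (s + κ - 1)) ∧ wl x γ * pz x g s = pz x g (s + κ) := by
  induction κ with
  | zero =>
    refine ⟨[], rfl, ?_, ?_, ?_⟩
    · unfold Ok
      simp
    · simp
    · simp [wl]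
  | succ κ ih =>
    obtain ⟨γ, h1, h2, h3, h4⟩ := ih fun t ht => hr t (by omega)
    refine ⟨γ ++ [g (s + κ)], by simp [h1], ?_, ?_, ?_⟩
    · unfold Ok at *
      rw [← List.cons_append, List.isChain_append]
      refine ⟨h2, by simp, ?_⟩
      intro c hc d hd
      rw [h3] at hc
      simp only [List.head?_cons, Option.mem_def, Option.some.injEq] at hc hd
      subst hc
      subst hd
      have := hr (s + κ - 1) (by omega)
      rw [show s + κ - 1 + 1 = s + κ by omega] at this
      exact this
    · rw [← List.cons_append, List.getLast?_concat]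
      rfl
    · rw [wl_snoc, mul_assoc, h4]
      rfl

theorem reach (s κ : ℕ) (hs : 1 ≤ s) (hr : Red g (s + κ)) (p : Fin n) (δ : List (Letter 2))
    (hδ : δ.length ≤ κ) : ∃ γ : List (Letter 2), κ - δ.length ≤ γ.length ∧
      γ.length ≤ κ + δ.length ∧ Ok (g (s - 1)) γ ∧
      wl x δ (pz x g (s + κ) p) = wl x γ (pz x g s p) := by
  induction δ using List.reverseRecOn with
  | nil =>
    obtain ⟨γ, h1, h2, _, h4⟩ := word (x := x) (g := g) s hs κ hr
    refine ⟨γ, by simp [h1], by simp [h1], h2, ?_⟩
    rw [← h4]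
    simp [wl]
  | append_singleton δ l ih =>
    rw [List.length_append, List.length_singleton] at hδ ⊢
    obtain ⟨γ, h1, h2, h3, h4⟩ := ih (by omega)
    rcases List.eq_nil_or_concat γ with h | ⟨γ', a, h⟩
    · rw [h] at h1
      simp at h1
      omega
    · rw [List.concat_eq_append] at h
      subst h
      rw [List.length_append, List.length_singleton] at h1 h2
      by_cases hl : l = flip a
      · refine ⟨γ', by omega, by omega, ok_prefix h3, ?_⟩
        rw [wl_snoc, Perm.mul_apply, h4, wl_snoc, Perm.mul_apply, hl, lett_flip]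
        simp
      · refine ⟨γ' ++ [a] ++ [l], ?_, ?_, ok_snoc h3 hl, ?_⟩
        · simp only [List.length_append, List.length_singleton]
          omega
        · simp only [List.length_append, List.length_singleton]
          omega
        · rw [wl_snoc, wl_snoc, Perm.mul_apply, h4, Perm.mul_apply]

/-- **BALL** -/
theorem ball : S_BALL := by
  classical
  intro n κ' s r₁ F η x g S hs hr hη hr₁ hfull hF
  set P : Finset (Fin n) := S.filter fun p => ¬ shal (2 * κ') x g S s p with hP
  have hPc : r₁ ≤ P.card := by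
    refine hr₁.trans (le_of_eq ?_)
    rw [Nat.card_eq_fintype_card, Fintype.card_subtype, hP]
    congr 1
    ext p
    simp
  let y : Fin n → Fin n := fun p => pz x g (s + κ') p
  let G : ℕ → Finset (Fin n) := fun j => Finset.univ.filter fun v =>
    ∃ p ∈ P, ∃ δ : List (Letter 2), δ.length ≤ j ∧ wl x δ (y p) = v
  have hG : ∀ j v, v ∈ G j ↔ ∃ p ∈ P, ∃ δ : List (Letter 2), δ.length ≤ j ∧ wl x δ (y p) = v := by
    intro j v
    simp [G]
  have hmono : ∀ i j, i ≤ j → G i ⊆ G j := by
    intro i j hij v hv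
    rw [hG] at hv ⊢
    obtain ⟨p, hp, δ, h1, h2⟩ := hv
    exact ⟨p, hp, δ, by omega, h2⟩
  have hsub : ∀ j ≤ κ', G j ⊆ full x g S s := by
    intro j hj v hv
    rw [hG] at hv
    obtain ⟨p, hp, δ, h1, h2⟩ := hv
    obtain ⟨γ, _, h4, h5, h6⟩ := reach (x := x) s κ' hs hr p δ (by omega)
    by_contra hc
    rw [hP, Finset.mem_filter] at hp
    refine hp.2 ⟨γ, by omega, h5, ?_⟩
    rw [← h6]
    exact fun h => hc (h2 ▸ h)
  have hG0 : r₁ ≤ (G 0).card := by
    refine hPc.trans ?_
    rw [← Finset.card_image_of_injective P (f := y) (Equiv.injective _)]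
    refine Finset.card_le_card fun v hv => ?_
    rw [Finset.mem_image] at hv
    obtain ⟨p, hp, rfl⟩ := hv
    rw [hG]
    exact ⟨p, hp, [], le_rfl, rfl⟩
  -- pigeonhole
  have hpig : ∃ j < κ', ((G (j + 1)).card : ℝ) ≤ (1 + η) * (G j).card := by
    by_contra hc
    push Not at hc
    have h1 : ∀ j ≤ κ', (1 + η) ^ j * (G 0).card ≤ ((G j).card : ℝ) := by
      intro j
      induction j with
      | zero => intro _; simp
      | succ j ih =>
        intro hj
        have h2 := ih (by omega)
        have h3 := hc j (by omega)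
        calc (1 + η) ^ (j + 1) * ((G 0).card : ℝ) = (1 + η) * ((1 + η) ^ j * (G 0).card) := by ring
          _ ≤ (1 + η) * (G j).card := mul_le_mul_of_nonneg_left h2 (by positivity)
          _ ≤ _ := h3.le
    have h2 := h1 κ' le_rfl
    have h3 : ((G κ').card : ℝ) ≤ F := by
      exact_mod_cast (Finset.card_le_card (hsub κ' le_rfl)).trans hfull
    have h4 : (1 + η) ^ κ' * (r₁ : ℝ) ≤ (1 + η) ^ κ' * (G 0).card :=
      mul_le_mul_of_nonneg_left (by exact_mod_cast hG0) (by positivity)
    linarith
  obtain ⟨j, hj, hjc⟩ := hpig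
  refine ⟨G j, hG0.trans (Finset.card_le_card (hmono 0 j (by omega))),
    (Finset.card_le_card (hsub j hj.le)).trans hfull, ?_, ?_⟩
  · intro i
    have h1 : ((G j).filter fun v => (x i : Perm (Fin n)) v ∉ G j).card ≤
        (G (j + 1) \ G j).card := by
      refine Finset.card_le_card_of_injOn (fun v => (x i : Perm (Fin n)) v) ?_
        ((Equiv.injective _).injOn)
      intro v hv
      rw [Finset.mem_coe, Finset.mem_filter] at hv
      rw [Finset.mem_coe, Finset.mem_sdiff]
      refine ⟨?_, hv.2⟩
      obtain ⟨p, hp, δ, h1, h2⟩ := (hG j v).1 hv.1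
      refine (hG _ _).2 ⟨p, hp, δ ++ [(i, false)], by simpa using h1, ?_⟩
      rw [wl_snoc, Perm.mul_apply, h2]
      rfl
    rw [Finset.card_sdiff_of_subset (hmono j (j + 1) (by omega))] at h1
    have h2 : (G j).card ≤ (G (j + 1)).card := Finset.card_le_card (hmono j (j + 1) (by omega))
    have h3 : (((G j).filter fun v => (x i : Perm (Fin n)) v ∉ G j).card : ℝ) ≤
        (G (j + 1)).card - (G j).card := by
      rw [← Nat.cast_sub h2]
      exact_mod_cast h1
    linarith
  · refine hPc.trans (Finset.card_le_card fun p hp => ?_)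
    rw [Finset.mem_filter]
    refine ⟨(Finset.mem_filter.1 hp).1, (hG _ _).2 ⟨p, hp, [], by simp, rfl⟩⟩

end Pool.Agent.Helper54.AK.Ball
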