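import Pool.Agent.Helper3.AK.Goals1

/-! Packet AK-RED: reduction of the gap on tuples to eigenfunctions with vanishing marginals. -/

namespace Pool.Agent.Helper54.AK

open Equiv Pool.Agent.Helper3.AK

variable {n r k s : ℕ}

/-- the marginal of `f` along the coordinates `e` -/
noncomputable def marg (e : Fin s ↪ Fin r) : Fn n r →ₗ[ℝ] Fn n s where
  toFun f b := ∑ a ∈ Finset.univ.filter (fun a : Fin r ↪ Fin n => e.trans a = b), f a
  map_add' f g := by
    ext b
    simp only [Pi.add_apply]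
    exact Finset.sum_add_distrib
  map_smul' c f := by
    ext b
    simp only [Pi.smul_apply, smul_eq_mul, RingHom.id_apply]
    exact (Finset.mul_sum _ _ _).symm

theorem marg_apply (e : Fin s ↪ Fin r) (f : Fn n r) (b : Fin s ↪ Fin n) :
    marg e f b = ∑ a ∈ Finset.univ.filter (fun a : Fin r ↪ Fin n => e.trans a = b), f a := rfl

/-- composition with a permutation, as a permutation of the tuples -/
def comp (g : Perm (Fin n)) : (Fin r ↪ Fin n) ≃ (Fin r ↪ Fin n) where
  toFun a := a.trans g.toEmbedding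
  invFun a := a.trans (g⁻¹ : Perm (Fin n)).toEmbedding
  left_inv a := by
    ext i
    simp
  right_inv a := by
    ext i
    simp

theorem comp_apply (g : Perm (Fin n)) (a : Fin r ↪ Fin n) : comp g a = a.trans g.toEmbedding := rfl

theorem marg_Act (e : Fin s ↪ Fin r) (g : Perm (Fin n)) (f : Fn n r) :
    marg e (Act g f) = Act g (marg e f) := by
  ext b
  rw [Act_apply, marg_apply, marg_apply]
  refine Finset.sum_equiv (comp g) ?_ ?_
  · intro a
    simp only [Finset.mem_filter, Finset.mem_univ, true_and, comp_apply]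
    constructor
    · rintro rfl
      rfl
    · intro h
      apply (comp g).injective
      exact h
  · intro a _
    rfl

theorem marg_Wk (e : Fin s ↪ Fin r) (z : Fin k → Alt n) (f : Fn n r) :
    marg e (Wk z f) = Wk z (marg e f) := by
  simp only [Wk, LinearMap.smul_apply, LinearMap.sum_apply, LinearMap.add_apply, map_smul,
    map_sum, map_add, marg_Act]

theorem marg_refl (f : Fn n r) : marg (Function.Embedding.refl _) f = f := by
  ext b
  rw [marg_apply, Finset.sum_eq_single b]
  · intro a ha hab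
    rw [Finset.mem_filter] at ha
    exact absurd ha.2 hab
  · intro h
    exfalso
    apply h
    rw [Finset.mem_filter]
    exact ⟨Finset.mem_univ _, rfl⟩

theorem marg_zero (e : Fin 0 ↪ Fin r) (f : Fn n r) (hf : ∑ a, f a = 0) : marg e f = 0 := by
  ext b
  rw [marg_apply, Finset.filter_true_of_mem]
  · exact hf
  · intro a _
    ext i
    exact i.elim0

theorem marg_marg {s : ℕ} (e : Fin (s + 1) ↪ Fin r) (f : Fn n r) (j : Fin (s + 1))
    (a : Fin (s + 1) ↪ Fin n) :
    ∑ b ∈ Finset.univ.filter (fun b : Fin (s + 1) ↪ Fin n => ∀ i, i ≠ j → b i = a i),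
      marg e f b = marg (j.succAboveEmb.trans e) f (j.succAboveEmb.trans a) := by
  have h1 : ∀ x : Fin r ↪ Fin n, (∀ i, i ≠ j → (e.trans x) i = a i) ↔
      (j.succAboveEmb.trans e).trans x = j.succAboveEmb.trans a := by
    intro x
    constructor
    · intro h
      ext i
      exact congrArg Fin.val (h _ (Fin.succAbove_ne j i))
    · intro h i hi
      obtain ⟨i', rfl⟩ := Fin.exists_succAbove_eq hi
      exact DFunLike.congr_fun h i'
  rw [marg_apply]
  rw [← Finset.sum_fiberwise_of_maps_to (s := Finset.univ.filter (fun x : Fin r ↪ Fin n =>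
      (j.succAboveEmb.trans e).trans x = j.succAboveEmb.trans a))
    (t := Finset.univ.filter (fun b : Fin (s + 1) ↪ Fin n => ∀ i, i ≠ j → b i = a i))
    (g := fun x => e.trans x)]
  · refine Finset.sum_congr rfl fun b hb => ?_
    rw [marg_apply]
    refine Finset.sum_congr ?_ fun _ _ => rfl
    ext x
    simp only [Finset.mem_filter, Finset.mem_univ, true_and]
    constructor
    · intro h
      refine ⟨(h1 x).1 ?_, h⟩
      rw [h]
      exact (Finset.mem_filter.1 hb).2
    · exact fun h => h.2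
  · intro x hx
    rw [Finset.mem_filter] at hx ⊢
    exact ⟨Finset.mem_univ _, (h1 x).2 hx.2⟩

theorem key {z : Fin k → Alt n} {ε : ℝ}
    (hyp : ∀ s : ℕ, 1 ≤ s → s ≤ r → ∀ (f : Fn n s) (μ : ℝ), f ≠ 0 → Zm f → Wk z f = μ • f →
      μ ≤ 1 - ε) (f : Fn n r) (μ : ℝ) (hf : f ≠ 0) (h0 : ∑ a, f a = 0) (hμ : Wk z f = μ • f) :
    μ ≤ 1 - ε := by
  classical
  have hex : ∃ s, ∃ e : Fin s ↪ Fin r, marg e f ≠ 0 :=
    ⟨r, Function.Embedding.refl _, by rw [marg_refl]; exact hf⟩
  obtain ⟨e, he⟩ := Nat.find_spec hex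
  have hmin : ∀ s' < Nat.find hex, ∀ e' : Fin s' ↪ Fin r, marg e' f = 0 := by
    intro s' hs' e'
    by_contra hc
    exact Nat.find_min hex hs' ⟨e', hc⟩
  have hle : Nat.find hex ≤ r :=
    Nat.find_min' hex ⟨Function.Embedding.refl _, by rw [marg_refl]; exact hf⟩
  generalize Nat.find hex = s at e he hmin hle
  rcases s with _ | s
  · exact absurd (marg_zero e f h0) he
  · refine hyp (s + 1) (by omega) hle (marg e f) μ he ?_ ?_
    · intro j a
      rw [marg_marg, hmin s (by omega)]
      rfl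
    · rw [← marg_Wk, hμ, map_smul]

theorem ip_Act (g : Perm (Fin n)) (φ ψ : Fn n r) : ip φ (Act g ψ) = ip (Act g⁻¹ φ) ψ := by
  unfold ip
  refine Fintype.sum_equiv (comp g) _ _ fun a => ?_
  rw [Act_apply, Act_apply, comp_apply]
  have h : (a.trans g.toEmbedding).trans (g⁻¹ : Perm (Fin n)).toEmbedding = a := by
    ext i
    simp
  rw [h]

theorem ip_Wk (z : Fin k → Alt n) (φ ψ : Fn n r) : ip φ (Wk z ψ) = ip (Wk z φ) ψ := by
  have hadd : ∀ φ ψ χ : Fn n r, ip φ (ψ + χ) = ip φ ψ + ip φ χ := by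
    intro φ ψ χ
    simp only [ip, Pi.add_apply, mul_add, Finset.sum_add_distrib]
  have hadd' : ∀ φ ψ χ : Fn n r, ip (ψ + χ) φ = ip ψ φ + ip χ φ := by
    intro φ ψ χ
    simp only [ip, Pi.add_apply, add_mul, Finset.sum_add_distrib]
  have hsmul : ∀ (c : ℝ) (φ ψ : Fn n r), ip φ (c • ψ) = c * ip φ ψ := by
    intro c φ ψ
    simp only [ip, Pi.smul_apply, smul_eq_mul, Finset.mul_sum]
    refine Finset.sum_congr rfl fun a _ => by ring
  have hsmul' : ∀ (c : ℝ) (φ ψ : Fn n r), ip (c • ψ) φ = c * ip ψ φ := by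
    intro c φ ψ
    simp only [ip, Pi.smul_apply, smul_eq_mul, Finset.mul_sum]
    refine Finset.sum_congr rfl fun a _ => by ring
  have hsum : ∀ (s : Finset (Fin k)) (φ : Fn n r) (F : Fin k → Fn n r),
      ip φ (∑ i ∈ s, F i) = ∑ i ∈ s, ip φ (F i) := by
    intro s φ F
    simp only [ip, Finset.sum_apply, Finset.mul_sum]
    rw [Finset.sum_comm]
  have hsum' : ∀ (s : Finset (Fin k)) (φ : Fn n r) (F : Fin k → Fn n r),
      ip (∑ i ∈ s, F i) φ = ∑ i ∈ s, ip (F i) φ := by
    intro s φ F
    simp only [ip, Finset.sum_apply, Finset.sum_mul]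
    rw [Finset.sum_comm]
  simp only [Wk, LinearMap.smul_apply, LinearMap.sum_apply, LinearMap.add_apply]
  rw [hsmul, hsmul', hsum, hsum']
  congr 1
  refine Finset.sum_congr rfl fun i _ => ?_
  rw [hadd, hadd', ip_Act, ip_Act, inv_inv, add_comm]

theorem sum_Act (g : Perm (Fin n)) (φ : Fn n r) : ∑ a, Act g φ a = ∑ a, φ a :=
  Fintype.sum_equiv (comp g) _ _ fun _ => rfl

theorem sum_Wk (z : Fin k → Alt n) (φ : Fn n r) (h : ∑ a, φ a = 0) : ∑ a, Wk z φ a = 0 := by
  simp only [Wk, LinearMap.smul_apply, LinearMap.sum_apply, LinearMap.add_apply, Pi.smul_apply,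
    smul_eq_mul, Finset.sum_apply, Pi.add_apply]
  rw [← Finset.mul_sum, Finset.sum_comm]
  simp only [Finset.sum_add_distrib, sum_Act, h, add_zero, Finset.sum_const_zero, mul_zero]

/-- **RED** -/
theorem red : S_RED := by
  intro n k r z ε hyp φ hφ
  let V := EuclideanSpace ℝ (Fin r ↪ Fin n)
  let e : V ≃ₗ[ℝ] Fn n r := WithLp.linearEquiv 2 ℝ (Fn n r)
  let T : V →ₗ[ℝ] V := e.symm.toLinearMap ∘ₗ Wk z ∘ₗ e.toLinearMap
  have hin : ∀ x y : V, inner ℝ x y = ip (e x) (e y) := by
    intro x y
    rw [PiLp.inner_apply]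
    unfold ip
    refine Finset.sum_congr rfl fun a _ => ?_
    rw [RCLike.inner_apply, conj_trivial, mul_comm]
    rfl
  have hT : T.IsSymmetric := by
    intro x y
    rw [hin, hin]
    exact (ip_Wk z (e x) (e y)).symm
  let E : Submodule ℝ V :=
    { carrier := {f | ∑ a, e f a = 0}
      add_mem' := by
        intro a b ha hb
        simp only [Set.mem_ofPred_eq] at ha hb ⊢
        rw [map_add]
        simp only [Pi.add_apply, Finset.sum_add_distrib, ha, hb, add_zero]
      zero_mem' := by simp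
      smul_mem' := by
        intro c a ha
        simp only [Set.mem_ofPred_eq] at ha ⊢
        rw [map_smul]
        simp only [Pi.smul_apply, smul_eq_mul, ← Finset.mul_sum, ha, mul_zero] }
  have hE : ∀ f ∈ E, T f ∈ E := fun f hf => sum_Wk z (e f) hf
  have hTE : (T.restrict hE).IsSymmetric := hT.restrict_invariant hE
  let b := hTE.eigenvectorBasis rfl
  have hb : ∀ i, hTE.eigenvalues rfl i ≤ 1 - ε := by
    intro i
    have h1 := hTE.apply_eigenvectorBasis rfl i
    have h2 : (b i : V) ≠ 0 := by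
      intro h
      have h3 := b.orthonormal.ne_zero i
      exact h3 (Subtype.ext h)
    refine key hyp (e (b i : V)) _ ?_ (b i).2 ?_
    · intro h
      apply h2
      exact e.injective (h.trans (map_zero e).symm)
    · have h3 := congrArg (fun v : E => e (v : V)) h1
      exact h3
  let x : E := ⟨e.symm φ, hφ⟩
  have h1 : inner ℝ x ((T.restrict hE) x) = ∑ a, φ a * tupleWalk z r φ a := by
    show inner ℝ (x : V) (T x) = _
    rw [hin, ← Wk_eq]
    rfl
  have h2 : inner ℝ x x = ∑ a, φ a ^ 2 := by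
    show inner ℝ (x : V) (x : V) = _
    rw [hin]
    unfold ip
    refine Finset.sum_congr rfl fun a _ => ?_
    rw [sq]
    rfl
  rw [← h1, ← h2, ← b.sum_inner_mul_inner, ← b.sum_inner_mul_inner, Finset.mul_sum]
  refine Finset.sum_le_sum fun i _ => ?_
  have h3 : inner ℝ (b i) ((T.restrict hE) x) = hTE.eigenvalues rfl i * inner ℝ (b i) x := by
    rw [← hTE (b i) x, hTE.apply_eigenvectorBasis rfl i, inner_smul_left, conj_trivial]
    rfl
  have hc : inner ℝ x (b i) = inner ℝ (b i) x := real_inner_comm _ _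
  have h4 := mul_le_mul_of_nonneg_right (hb i) (mul_self_nonneg (inner ℝ (b i) x))
  rw [h3, hc]
  calc _ = hTE.eigenvalues rfl i * (inner ℝ (b i) x * inner ℝ (b i) x) := by ring
    _ ≤ _ := h4

end Pool.Agent.Helper54.AK
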